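import Pool.Agent.Helper45.FG.St4

/-!
Module NRH of project FG (owner helper45): the norm bound with a subgroup.
-/

set_option autoImplicit false

namespace Pool.Agent.Helper25.FG

open Pool.Agent.Helper45.FG
open scoped BigOperators

/-- The absolute value of the product of the conjugates of a nonzero algebraic integer is at least one. -/
private lemma one_le_prod_abs (K : IntermediateField ℚ ℝ) [FiniteDimensional ℚ K] [IsGalois ℚ K]
    (y : K) (hy : IsIntegral ℤ y) (hy0 : y ≠ 0) :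
    1 ≤ ∏ t : K ≃ₐ[ℚ] K, |((t y : K) : ℝ)| := by
  have hint : IsIntegral ℤ (Algebra.norm ℚ y) := Algebra.isIntegral_norm ℚ hy
  obtain ⟨m, hm⟩ := IsIntegrallyClosed.isIntegral_iff.mp hint
  have hN0 : Algebra.norm ℚ y ≠ 0 := (Algebra.norm_ne_zero_iff).mpr hy0
  have hm0 : m ≠ 0 := by
    rintro rfl
    apply hN0
    rw [← hm]
    simp
  have hm1 : (1 : ℝ) ≤ |(m : ℝ)| := by
    have := Int.one_le_abs hm0
    exact_mod_cast this
  have hprod := Algebra.norm_eq_prod_automorphisms ℚ y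
  have hcast : ((algebraMap ℚ K (Algebra.norm ℚ y) : K) : ℝ) = (m : ℝ) := by
    rw [← hm]
    simp
  have hcast2 : ((∏ t : K ≃ₐ[ℚ] K, t y : K) : ℝ) = ∏ t : K ≃ₐ[ℚ] K, ((t y : K) : ℝ) := by
    exact map_prod (algebraMap K ℝ) (fun t : K ≃ₐ[ℚ] K => t y) Finset.univ
  rw [← Finset.abs_prod, ← hcast2, ← hprod, hcast]
  exact hm1

theorem hNRH : StNRH := by
  intro K hfd hgal H x g hx habs hgap hmov
  have _ := hfd
  have _ := hgal
  obtain ⟨s, hsH, hs⟩ := hmov
  classical
  have hy : IsIntegral ℤ (x - s x) := hx.sub (hx.map s)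
  have hy0 : x - s x ≠ 0 := fun h => hs (sub_eq_zero.mp h).symm
  have h1 := one_le_prod_abs K (x - s x) hy hy0
  have hval : ∀ t : K ≃ₐ[ℚ] K, ((t (x - s x) : K) : ℝ) = ((t x : K) : ℝ) - (((t * s) x : K) : ℝ) := by
    intro t
    rw [map_sub, AlgEquiv.mul_apply]
    rfl
  set E : Finset (K ≃ₐ[ℚ] K) := Finset.univ.filter (fun t => t ∈ H) with hE
  have hEc : E.card = Nat.card H := by
    rw [Nat.card_eq_fintype_card, Fintype.card_subtype]
  have hn : Fintype.card (K ≃ₐ[ℚ] K) = Module.finrank ℚ K := by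
    rw [← Nat.card_eq_fintype_card]
    exact IsGalois.card_aut_eq_finrank ℚ K
  have hbig : ∀ t : K ≃ₐ[ℚ] K, |((t (x - s x) : K) : ℝ)| ≤ 2 * (x : ℝ) := by
    intro t
    rw [hval t]
    have ha := abs_le.mp (habs t)
    have hb := abs_le.mp (habs (t * s))
    rw [abs_le]
    constructor <;> linarith
  have hsmall : ∀ t ∈ E, |((t (x - s x) : K) : ℝ)| ≤ g := by
    intro t ht
    have htH : t ∈ H := (Finset.mem_filter.mp ht).2
    rw [hval t]
    have ha := abs_le.mp (habs t)
    have hb := abs_le.mp (habs (t * s))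
    have hc := hgap t htH
    have hd := hgap (t * s) (H.mul_mem htH hsH)
    rw [abs_le]
    constructor <;> linarith
  have hsplit := Finset.prod_sdiff (f := fun t : K ≃ₐ[ℚ] K => |((t (x - s x) : K) : ℝ)|)
    (Finset.subset_univ E)
  have hA : ∏ t ∈ (Finset.univ \ E : Finset (K ≃ₐ[ℚ] K)), |((t (x - s x) : K) : ℝ)|
      ≤ (2 * (x : ℝ)) ^ (Module.finrank ℚ K - Nat.card H) := by
    have hcard : (Finset.univ \ E : Finset (K ≃ₐ[ℚ] K)).card = Module.finrank ℚ K - Nat.card H := by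
      rw [Finset.card_sdiff_of_subset (Finset.subset_univ E), hEc, Finset.card_univ, hn]
    rw [← hcard, ← Finset.prod_const]
    apply Finset.prod_le_prod
    · intro t _
      exact abs_nonneg _
    · intro t _
      exact hbig t
  have hB : ∏ t ∈ E, |((t (x - s x) : K) : ℝ)| ≤ g ^ (Nat.card H) := by
    rw [← hEc, ← Finset.prod_const]
    apply Finset.prod_le_prod
    · intro t _
      exact abs_nonneg _
    · intro t ht
      exact hsmall t ht
  rw [← hsplit] at h1
  refine h1.trans ?_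
  have hB0 : 0 ≤ ∏ t ∈ E, |((t (x - s x) : K) : ℝ)| := Finset.prod_nonneg fun _ _ => abs_nonneg _
  have hA0 : 0 ≤ ∏ t ∈ (Finset.univ \ E : Finset (K ≃ₐ[ℚ] K)), |((t (x - s x) : K) : ℝ)| :=
    Finset.prod_nonneg fun _ _ => abs_nonneg _
  rw [mul_comm]
  exact mul_le_mul hB hA hA0 (hB0.trans hB)

end Pool.Agent.Helper25.FG
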